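import Mathlib

set_option autoImplicit false

open Filter Topology Set

namespace Pool.Agent.Results.MP_69956f_gt.NonmetrizableConvex

/-- Scattered continuity: every nonempty subset `A` has a point of continuity of `f|A`. -/
def ScatteredlyContinuous (f : (ℕ → ℕ) → ℝ) : Prop :=
  ∀ A : Set (ℕ → ℕ), A.Nonempty → ∃ a ∈ A, ContinuousWithinAt f A a

/-- Nonnegative functions with total mass at most one. -/
def Mass (ι : Type) : Set (ι → ℝ) :=
  {h | (∀ i, 0 ≤ h i) ∧ ∀ F : Finset ι, ∑ i ∈ F, h i ≤ 1}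

theorem Mass.le_one {ι : Type} {h : ι → ℝ} (hh : h ∈ Mass ι) (i : ι) : h i ≤ 1 := by
  have := hh.2 {i}
  simpa using this

theorem convex_Mass (ι : Type) : Convex ℝ (Mass ι) := by
  intro h hh k hk a b ha hb hab
  refine ⟨fun i => ?_, fun F => ?_⟩
  · have h1 := hh.1 i
    have h2 := hk.1 i
    show 0 ≤ a * h i + b * k i
    positivity
  · have h1 := hh.2 F
    have h2 := hk.2 F
    have h3 : ∑ i ∈ F, (a • h + b • k) i = a * ∑ i ∈ F, h i + b * ∑ i ∈ F, k i := by
      rw [Finset.mul_sum, Finset.mul_sum, ← Finset.sum_add_distrib]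
      rfl
    rw [h3]
    nlinarith

theorem isCompact_Mass (ι : Type) : IsCompact (Mass ι) := by
  have h1 : IsCompact (Set.pi univ (fun _ : ι => Icc (0 : ℝ) 1)) :=
    isCompact_univ_pi (fun _ => isCompact_Icc)
  have h2 : Mass ι = (Set.pi univ (fun _ : ι => Icc (0 : ℝ) 1)) ∩
      ⋂ F : Finset ι, {h : ι → ℝ | ∑ i ∈ F, h i ≤ 1} := by
    ext h
    constructor
    · intro hh
      refine ⟨fun i _ => ⟨hh.1 i, Mass.le_one hh i⟩, ?_⟩
      exact mem_iInter.mpr hh.2
    · rintro ⟨h3, h4⟩
      exact ⟨fun i => (h3 i (mem_univ i)).1, fun F => mem_iInter.mp h4 F⟩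
  rw [h2]
  refine h1.inter_right (isClosed_iInter fun F => ?_)
  exact isClosed_le (continuous_finsetSum _ (fun i _ => continuous_apply i)) continuous_const

theorem finite_large {ι : Type} {h : ι → ℝ} (hh : h ∈ Mass ι) {c : ℝ} (hc : 0 < c) :
    {i | c < h i}.Finite := by
  by_contra hinf
  have hinf' : {i | c < h i}.Infinite := hinf
  obtain ⟨n, hn⟩ := exists_nat_gt (1 / c)
  obtain ⟨F, hF, hFc⟩ := hinf'.exists_subset_card_eq n
  have h1 : (n : ℝ) * c ≤ ∑ i ∈ F, h i := by
    rw [← hFc, ← nsmul_eq_mul]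
    exact Finset.card_nsmul_le_sum _ _ _ (fun i hi => (hF hi).le)
  have h2 := hh.2 F
  rw [div_lt_iff₀ hc] at hn
  linarith

/-- The unit mass at a point. -/
noncomputable def unitMass {ι : Type} (i : ι) : ι → ℝ := by
  classical exact fun j => if j = i then 1 else 0

theorem unitMass_self {ι : Type} (i : ι) : unitMass i i = 1 := by simp [unitMass]
theorem unitMass_ne {ι : Type} {i j : ι} (h : j ≠ i) : unitMass i j = 0 := by simp [unitMass, h]

theorem unitMass_mem {ι : Type} (i : ι) : unitMass i ∈ Mass ι := by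
  classical
  refine ⟨fun j => ?_, fun F => ?_⟩
  · by_cases h : j = i
    · rw [h, unitMass_self]; exact zero_le_one
    · rw [unitMass_ne h]
  · unfold unitMass
    rw [Finset.sum_ite_eq' F i]
    split_ifs
    · exact le_rfl
    · exact zero_le_one

theorem not_metrizable_Mass {ι : Type} (hι : Uncountable ι) :
    ¬ TopologicalSpace.MetrizableSpace (Mass ι) := by
  intro hm
  have := isCompact_iff_compactSpace.mp (isCompact_Mass ι)
  let := TopologicalSpace.metrizableSpaceMetric (Mass ι)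
  have hsep : TopologicalSpace.SeparableSpace (Mass ι) := inferInstance
  have hc : Countable ι := by
    refine Pairwise.countable_of_isOpen_disjoint (α := Mass ι)
      (s := fun i : ι => {h : Mass ι | (1 / 2 : ℝ) < (h : ι → ℝ) i}) ?_ ?_ ?_
    · intro i j hij
      rw [Function.onFun, Set.disjoint_left]
      intro h h1 h2
      have h1' : (1 / 2 : ℝ) < (h : ι → ℝ) i := h1
      have h2' : (1 / 2 : ℝ) < (h : ι → ℝ) j := h2
      classical
      have h3 := h.2.2 {i, j}
      rw [Finset.sum_pair hij] at h3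
      linarith
    · intro i
      exact isOpen_lt continuous_const ((continuous_apply i).comp continuous_subtype_val)
    · intro i
      refine ⟨⟨unitMass i, unitMass_mem i⟩, ?_⟩
      show (1 / 2 : ℝ) < unitMass i i
      rw [unitMass_self]
      norm_num
  exact hι.1 hc

/-- The tail of a sequence. -/
def tail (y : ℕ → ℕ) : ℕ → ℕ := fun n => y (n + 1)

theorem continuous_tail : Continuous tail := continuous_pi fun n => continuous_apply (n + 1)

/-- The sequence with given head and tail. -/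
def cons (m : ℕ) (x : ℕ → ℕ) : ℕ → ℕ := fun n => Nat.casesOn n m x

theorem tail_cons (m : ℕ) (x : ℕ → ℕ) : tail (cons m x) = x := rfl

theorem cons_zero (m : ℕ) (x : ℕ → ℕ) : cons m x 0 = m := rfl

theorem eq_of_tail {y z : ℕ → ℕ} (h0 : y 0 = z 0) (h : tail y = tail z) : y = z := by
  funext n
  cases n with
  | zero => exact h0
  | succ n => exact congrFun h n

/-- The embedding of the convex set into the scatteredly continuous functions. -/
noncomputable def emb {ι : Type} (e : ι ≃ (ℕ → ℕ)) (h : ι → ℝ) (y : ℕ → ℕ) : ℝ :=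
  max (h (e.symm (tail y)) - 1 / ((y 0 : ℝ) + 1)) 0

theorem continuous_emb {ι : Type} (e : ι ≃ (ℕ → ℕ)) : Continuous (emb e) := by
  refine continuous_pi fun y => ?_
  exact ((continuous_apply _).sub continuous_const).max continuous_const

theorem emb_injOn {ι : Type} (e : ι ≃ (ℕ → ℕ)) : InjOn (emb e) (Mass ι) := by
  have key : ∀ h ∈ Mass ι, ∀ k ∈ Mass ι, emb e h = emb e k → ∀ i, h i ≤ k i := by
    intro h hh k hk hhk i
    by_contra hlt
    push Not at hlt
    have hpos : 0 < h i - k i := by linarith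
    obtain ⟨m, hm⟩ := exists_nat_one_div_lt hpos
    have h1 := congrFun hhk (cons m (e i))
    simp only [emb, tail_cons, cons_zero, Equiv.symm_apply_apply] at h1
    have h2 := hk.1 i
    have h3 : 0 < h i - 1 / ((m : ℝ) + 1) := by linarith
    rw [max_eq_left h3.le] at h1
    rcases le_total 0 (k i - 1 / ((m : ℝ) + 1)) with h4 | h4
    · rw [max_eq_left h4] at h1
      linarith
    · rw [max_eq_right h4] at h1
      linarith
  intro h hh k hk hhk
  funext i
  exact le_antisymm (key h hh k hk hhk i) (key k hk h hh hhk.symm i)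

theorem emb_sc {ι : Type} (e : ι ≃ (ℕ → ℕ)) {h : ι → ℝ} (hh : h ∈ Mass ι) :
    ScatteredlyContinuous (emb e h) := by
  intro A hA
  obtain ⟨a, ha⟩ := hA
  set m := a 0 with hm
  have hpos : (0 : ℝ) < 1 / ((m : ℝ) + 1) := by positivity
  set F : Set (ℕ → ℕ) := {x | 1 / ((m : ℝ) + 1) < h (e.symm x)} with hF
  have hFfin : F.Finite := by
    have h1 := finite_large hh hpos
    have h2 : F = e.symm ⁻¹' {i | 1 / ((m : ℝ) + 1) < h i} := rfl
    rw [h2]
    exact h1.preimage e.symm.injective.injOn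
  have hlev : IsOpen {z : ℕ → ℕ | z 0 = m} := by
    have hc : Continuous (fun z : ℕ → ℕ => z 0) := continuous_apply 0
    exact (isOpen_discrete ({m} : Set ℕ)).preimage hc
  by_cases hex : ∃ y ∈ A, y 0 = m ∧ tail y ∉ F
  · obtain ⟨y, hyA, hy0, hyF⟩ := hex
    refine ⟨y, hyA, ContinuousAt.continuousWithinAt ?_⟩
    have hO : IsOpen ({z : ℕ → ℕ | z 0 = m} ∩ tail ⁻¹' Fᶜ) :=
      hlev.inter (hFfin.isClosed.isOpen_compl.preimage continuous_tail)
    have hz : ∀ z ∈ {z : ℕ → ℕ | z 0 = m} ∩ tail ⁻¹' Fᶜ, emb e h z = 0 := by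
      rintro z ⟨hz0, hzF⟩
      have hz0' : z 0 = m := hz0
      have h1 : h (e.symm (tail z)) ≤ 1 / ((m : ℝ) + 1) := not_lt.mp hzF
      simp only [emb, hz0']
      exact max_eq_right (by linarith)
    have hyO : y ∈ {z : ℕ → ℕ | z 0 = m} ∩ tail ⁻¹' Fᶜ := ⟨hy0, hyF⟩
    have h2 : emb e h =ᶠ[𝓝 y] fun _ => (0 : ℝ) := by
      filter_upwards [hO.mem_nhds hyO] with z hz'
      exact hz z hz'
    exact continuousAt_const.congr h2.symm
  · push Not at hex
    refine ⟨a, ha, ?_⟩
    set B : Set (ℕ → ℕ) := {y | y ∈ A ∧ y 0 = m} with hB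
    have hBfin : B.Finite := by
      refine Set.Finite.of_finite_image (f := tail) (hFfin.subset ?_) ?_
      · rintro _ ⟨y, hy, rfl⟩
        exact hex y hy.1 hy.2
      · intro y hy z hz hyz
        exact eq_of_tail (hy.2.trans hz.2.symm) hyz
    have hO : IsOpen ({z : ℕ → ℕ | z 0 = m} ∩ (B \ {a})ᶜ) :=
      hlev.inter (hBfin.subset sdiff_subset).isClosed.isOpen_compl
    have haO : a ∈ {z : ℕ → ℕ | z 0 = m} ∩ (B \ {a})ᶜ := ⟨rfl, fun h => h.2 rfl⟩
    have hcont : ∀ᶠ z in 𝓝[A] a, emb e h z = emb e h a := by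
      rw [eventually_nhdsWithin_iff]
      filter_upwards [hO.mem_nhds haO] with z hz hzA
      have hza : z = a := by
        by_contra hne
        exact hz.2 ⟨⟨hzA, hz.1⟩, hne⟩
      rw [hza]
    exact tendsto_const_nhds.congr' (hcont.mono fun z hz => hz.symm)

/-- **Negative answer to Q1** (the negated form holds): there is a compact set `K` of scatteredly
continuous functions on Baire space, with the topology of pointwise convergence, which is
homeomorphic to a compact convex subset of `ℝ^ι` for every `ι` of cardinality the continuum, but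
which is not metrizable. -/
theorem result : ∃ K : Set ((ℕ → ℕ) → ℝ), IsCompact K ∧
    (∀ f ∈ K, ScatteredlyContinuous f) ∧
    (∀ ι : Type, Cardinal.mk ι = Cardinal.continuum →
      ∃ C : Set (ι → ℝ), IsCompact C ∧ Convex ℝ C ∧ Nonempty (K ≃ₜ C)) ∧
    ¬ TopologicalSpace.MetrizableSpace K := by
  classical
  let e₀ : (ℕ → ℕ) ≃ (ℕ → ℕ) := Equiv.refl _
  have hcard : Cardinal.mk (ℕ → ℕ) = Cardinal.continuum := by simp
  have hunc : Uncountable (ℕ → ℕ) := by
    rw [← Cardinal.aleph0_lt_mk_iff, hcard]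
    exact Cardinal.aleph0_lt_continuum
  have hcomp : ∀ ι : Type, CompactSpace (Mass ι) := fun ι =>
    isCompact_iff_compactSpace.mp (isCompact_Mass ι)
  -- for each enumeration of the index set, the convex set is homeomorphic to its image
  have hhomeo : ∀ (ι : Type) (e : ι ≃ (ℕ → ℕ)), Nonempty (Mass ι ≃ₜ emb e '' Mass ι) := by
    intro ι e
    have := hcomp ι
    let f : Mass ι → emb e '' Mass ι := fun h => ⟨emb e h, mem_image_of_mem _ h.2⟩
    have hf : Continuous f := ((continuous_emb e).comp continuous_subtype_val).subtype_mk _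
    have hinj : Function.Injective f := by
      intro h k hhk
      exact Subtype.ext (emb_injOn e h.2 k.2 (congrArg Subtype.val hhk))
    have hsurj : Function.Surjective f := by
      rintro ⟨_, ⟨h, hh, rfl⟩⟩
      exact ⟨⟨h, hh⟩, rfl⟩
    exact ⟨hf.homeoOfEquivCompactToT2 (f := Equiv.ofBijective f ⟨hinj, hsurj⟩)⟩
  refine ⟨emb e₀ '' Mass (ℕ → ℕ), (isCompact_Mass _).image (continuous_emb e₀), ?_, ?_, ?_⟩
  · rintro _ ⟨h, hh, rfl⟩
    exact emb_sc e₀ hh
  · intro ι hι
    refine ⟨Mass ι, isCompact_Mass ι, convex_Mass ι, ?_⟩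
    obtain ⟨e⟩ := Cardinal.eq.mp (hι.trans hcard.symm)
    obtain ⟨φ⟩ := hhomeo ι e
    have himg : emb e '' Mass ι = emb e₀ '' Mass (ℕ → ℕ) := by
      ext f
      constructor
      · rintro ⟨h, hh, rfl⟩
        refine ⟨fun x => h (e.symm x), ⟨fun x => hh.1 _, fun F => ?_⟩, rfl⟩
        have h1 := hh.2 (F.map e.symm.toEmbedding)
        rwa [Finset.sum_map] at h1
      · rintro ⟨h, hh, rfl⟩
        refine ⟨fun i => h (e i), ⟨fun x => hh.1 _, fun F => ?_⟩, ?_⟩
        · have h1 := hh.2 (F.map e.toEmbedding)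
          rwa [Finset.sum_map] at h1
        · funext y
          simp [emb, e₀]
    exact ⟨((Homeomorph.setCongr himg).symm.trans φ.symm)⟩
  · intro hm
    obtain ⟨φ⟩ := hhomeo (ℕ → ℕ) e₀
    exact not_metrizable_Mass hunc φ.isEmbedding.metrizableSpace

end Pool.Agent.Results.MP_69956f_gt.NonmetrizableConvex
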